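import Pool.Agent.MP_2d2dfa_co.Main

set_option autoImplicit false
open Set

namespace Pool.Agent.Results.MP_2d2dfa_co.TwelveCongruent

open Pool.Agent.MP_2d2dfa_co

theorem immobile_strong (i : Fin 12) (γ : ℝ → E → E)
    (hcont : ∀ x, ContinuousOn (fun t => γ t x) (Icc (0 : ℝ) 1))
    (h0 : ∀ x, γ 0 x = x)
    (hiso : ∀ t ∈ Icc (0 : ℝ) 1, Isometry (γ t))
    (hdis : ∀ t ∈ Icc (0 : ℝ) 1, ∀ j, j ≠ i →
      Disjoint (interior (γ t '' body i)) (interior (body j))) :
    ∀ t ∈ Icc (0 : ℝ) 1, ∀ x, γ t x = x := by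
  set G : ℝ → E → E := fun t x => Lb i (γ t (Lf i x)) with hG
  have hGiso : ∀ t ∈ Icc (0 : ℝ) 1, Isometry (G t) := fun t ht =>
    (Lb_isometry i).comp ((hiso t ht).comp (Lf_isometry i))
  have hcontact : ∀ t ∈ Icc (0 : ℝ) 1, ∀ k : Fin 12,
      6 ≤ dist (G t (toE (vx k))) (toE (fun a => vx k a + 2 * wx k a)) := by
    intro t ht k
    obtain ⟨j, l, hji, hjl⟩ := nbr_check i k
    have h1 : dist (G t (toE (vx k))) (toE (fun a => vx k a + 2 * wx k a)) =
        dist (γ t (toE (app (mx i) (vx k)))) (toE (app (mx j) (vx l))) := by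
      rw [← hjl, ← Lf_toE, ← Lf_toE]
      conv_lhs => rw [← Lb_Lf i (toE (fun a => vx k a + 2 * wx k a))]
      exact (Lb_isometry i).dist_eq _ _
    rw [h1]
    exact far_of_disjoint (hiso t ht) (ball_subset i k) (ball_subset j l) (hdis t ht j hji)
  have hineq : ∀ t ∈ Icc (0 : ℝ) 1, fv (G t) ≤ 30000000 * fv (G t) ^ 2 := fun t ht =>
    local_rigid (hGiso t ht) (hcontact t ht)
  have hGc : ∀ (x : E) (b : Fin 3), ContinuousOn (fun t => G t x b) (Icc (0 : ℝ) 1) := by
    intro x b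
    have h2 : ContinuousOn (fun t : ℝ => Lb i (γ t (Lf i x))) (Icc (0 : ℝ) 1) :=
      (Lb_isometry i).continuous.comp_continuousOn (hcont (Lf i x))
    exact (EuclideanSpace.proj (𝕜 := ℝ) b).continuous.comp_continuousOn h2
  have hfc : ContinuousOn (fun t => fv (G t)) (Icc (0 : ℝ) 1) := by
    unfold fv av mv
    apply ContinuousOn.add
    · exact continuousOn_finsetSum _ (fun b _ => (hGc 0 b).abs)
    · exact continuousOn_finsetSum _ (fun b _ => continuousOn_finsetSum _ (fun c _ =>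
        (((hGc _ b).sub (hGc 0 b)).sub continuousOn_const).abs))
  have hf0 : fv (G 0) = 0 := by
    have : G 0 = id := by
      funext x
      simp only [hG, h0, Lb_Lf, id]
    rw [this]
    unfold fv av mv
    simp [PiLp.single_apply]
  intro r hr x
  have hf1 : fv (G r) = 0 := by
    by_contra hne
    have hpos : 0 < fv (G r) := lt_of_le_of_ne (fv_nonneg _) (Ne.symm hne)
    set s : ℝ := min (fv (G r)) (1 / 60000000) with hs
    have hspos : 0 < s := lt_min hpos (by norm_num)
    have hsub : Icc (0 : ℝ) r ⊆ Icc 0 1 := Icc_subset_Icc le_rfl hr.2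
    have hivt := intermediate_value_Icc (a := (0 : ℝ)) (b := r) hr.1 (hfc.mono hsub)
    obtain ⟨t, ht, hts⟩ := hivt (show s ∈ Icc (fv (G 0)) (fv (G r)) from
      ⟨by rw [hf0]; exact hspos.le, min_le_left _ _⟩)
    have h1 := hineq t (hsub ht)
    simp only at hts
    rw [hts] at h1
    have h2 : s ≤ 1 / 60000000 := min_le_right _ _
    nlinarith
  have hid := fv_zero (hGiso r hr) hf1
  have h1 := hid (Lb i x)
  simp only [hG, Lf_Lb] at h1
  exact (Lb_isometry i).injective h1

/-- the isometry carrying the body `i` to the body `j` -/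
noncomputable def carry (i j : Fin 12) : E ≃ᵢ E where
  toFun := fun x => Lf j (Lb i x)
  invFun := fun x => Lf i (Lb j x)
  left_inv := fun x => by simp only [Lb_Lf, Lf_Lb]
  right_inv := fun x => by simp only [Lb_Lf, Lf_Lb]
  isometry_toFun := (Lf_isometry j).comp (Lb_isometry i)

theorem mx_zero (v : Fin 3 → ℤ) : app (mx 0) v = v := by
  funext a
  fin_cases a <;> simp [app, mx, Fin.sum_univ_three]

theorem Lb_eq (i : Fin 12) (v : Fin 3 → ℤ) : Lb i (toE (app (mx i) v)) = toE v := by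
  rw [← Lf_toE, Lb_Lf]

theorem carry_vert (i j k : Fin 12) :
    carry i j (toE (app (mx i) (vx k))) = toE (app (mx j) (vx k)) := by
  change Lf j (Lb i (toE (app (mx i) (vx k)))) = _
  rw [Lb_eq, Lf_toE]

theorem carry_affine (i j : Fin 12) : ∃ f : E →ᵃ[ℝ] E, ∀ x, f x = carry i j x :=
  ⟨((carry i j).isometry.affineIsometryOfStrictConvexSpace).toAffineMap, fun _ => rfl⟩

theorem carry_core (i j : Fin 12) : carry i j '' core i = core j := by
  obtain ⟨f, hf⟩ := carry_affine i j
  have h1 : (carry i j : E → E) = f := funext fun x => (hf x).symm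
  unfold core
  rw [h1, AffineMap.image_convexHull, ← Set.range_comp]
  congr 1
  congr 1
  funext k
  simp only [Function.comp]
  rw [hf, carry_vert]

theorem carry_body (i j : Fin 12) : carry i j '' body i = body j := by
  unfold body
  rw [(core_compact i).cthickening_eq_biUnion_closedBall (by norm_num),
    (core_compact j).cthickening_eq_biUnion_closedBall (by norm_num)]
  rw [Set.image_iUnion₂]
  rw [← carry_core i j, Set.biUnion_image]
  simp only [IsometryEquiv.image_closedBall]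

/-- Twelve pairwise congruent smooth convex bodies, none of which can be moved at all. -/
theorem result : ∃ K : Fin 12 → Set (EuclideanSpace ℝ (Fin 3)),
    (∀ i, IsCompact (K i) ∧ Convex ℝ (K i) ∧ (interior (K i)).Nonempty ∧
      (∀ x ∈ frontier (K i), ∀ u v : EuclideanSpace ℝ (Fin 3), u ≠ 0 → v ≠ 0 →
        (∀ y ∈ K i, inner ℝ u (y - x) ≤ 0) → (∀ y ∈ K i, inner ℝ v (y - x) ≤ 0) →
        ∃ c : ℝ, 0 < c ∧ v = c • u)) ∧
    (∀ i j, ∃ φ : EuclideanSpace ℝ (Fin 3) ≃ᵢ EuclideanSpace ℝ (Fin 3), φ '' K i = K j) ∧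
    (∀ i j, i ≠ j → Disjoint (interior (K i)) (interior (K j))) ∧
    (∀ i, ∀ γ : ℝ → EuclideanSpace ℝ (Fin 3) → EuclideanSpace ℝ (Fin 3),
      (∀ x, ContinuousOn (fun t => γ t x) (Icc (0 : ℝ) 1)) →
      (∀ x, γ 0 x = x) →
      (∀ t ∈ Icc (0 : ℝ) 1, Isometry (γ t)) →
      (∀ t ∈ Icc (0 : ℝ) 1, ∀ j, j ≠ i →
        Disjoint (interior (γ t '' K i)) (interior (K j))) →
      ∀ t ∈ Icc (0 : ℝ) 1, ∀ x, γ t x = x) :=
  ⟨body, fun i => ⟨body_compact i, body_convex i, body_interior i, body_smooth i⟩,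
    fun i j => ⟨carry i j, carry_body i j⟩, fun _ _ hij => body_disjoint hij,
    fun i γ hc h0 hiso hdis => immobile_strong i γ hc h0 hiso hdis⟩

end Pool.Agent.Results.MP_2d2dfa_co.TwelveCongruent
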